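import Pool.Agent.X194.DC.Tree

set_option linter.unusedSectionVars false

/-! The map of the tree induced by a 2-Lipschitz map of the ultrametric space. -/

namespace Pool.Agent.X194.DC

open Set Topology Filter

variable {M : Type} [MetricSpace M] [Ultra M] {T : M → M}

/-- the map on points -/
noncomputable def FP (T : M → M) (p : Pt M) : Pt M :=
  ⟨T p.m, max 0 (2 * p.t - 1), le_max_left _ _, max_le zero_le_one (by linarith [p.h1])⟩

lemma dist_FP (hT : ∀ x y, dist (T x) (T y) ≤ 2 * dist x y) (p q : Pt M) :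
    dist (FP T p) (FP T q) ≤ 2 * dist p q := by
  have h1 := meet_le_left p q
  have h2 := meet_le_right p q
  have h3 := meet_le_dist p q
  have h4 := meet_nonneg p q
  have h5 : max 0 (2 * meet p q - 1) ≤ meet (FP T p) (FP T q) := by
    rw [le_meet_iff]
    refine ⟨⟨max_le_max le_rfl (by linarith), max_le_max le_rfl (by linarith)⟩, ?_⟩
    show dist (T p.m) (T q.m) ≤ _
    have h6 := hT p.m q.m
    have h7 := Ultra.le_one (T p.m) (T q.m)
    rcases max_cases 0 (2 * meet p q - 1) with ⟨h, _⟩ | ⟨h, _⟩ <;> rw [h] <;> linarith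
  rw [dist_def, dist_def]
  have h8 : (FP T p).t - max 0 (2 * meet p q - 1) ≤ 2 * (p.t - meet p q) := by
    show max 0 (2 * p.t - 1) - _ ≤ _
    rcases max_cases 0 (2 * meet p q - 1) with ⟨h, h'⟩ | ⟨h, h'⟩ <;>
    rcases max_cases 0 (2 * p.t - 1) with ⟨g, g'⟩ | ⟨g, g'⟩ <;> rw [h, g] <;> linarith
  have h9 : (FP T q).t - max 0 (2 * meet p q - 1) ≤ 2 * (q.t - meet p q) := by
    show max 0 (2 * q.t - 1) - _ ≤ _
    rcases max_cases 0 (2 * meet p q - 1) with ⟨h, h'⟩ | ⟨h, h'⟩ <;>
    rcases max_cases 0 (2 * q.t - 1) with ⟨g, g'⟩ | ⟨g, g'⟩ <;> rw [h, g] <;> linarith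
  linarith

/-- the induced map -/
noncomputable def fT (T : M → M) (hT : ∀ x y, dist (T x) (T y) ≤ 2 * dist x y) :
    DTree M → DTree M :=
  SeparationQuotient.lift (fun p => mk (FP T p)) (fun p q h => by
    rw [Metric.inseparable_iff] at h
    rw [mk_eq_mk]
    have := dist_FP hT p q
    rw [h] at this
    exact le_antisymm (by linarith) dist_nonneg)

lemma fT_mk (hT : ∀ x y, dist (T x) (T y) ≤ 2 * dist x y) (p : Pt M) :
    fT T hT (mk p) = mk (FP T p) := rfl

lemma continuous_fT (hT : ∀ x y, dist (T x) (T y) ≤ 2 * dist x y) : Continuous (fT T hT) := by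
  rw [Metric.continuous_iff]
  intro x ε hε
  obtain ⟨p, rfl⟩ := mk_surj x
  refine ⟨ε / 2, by linarith, fun y hy => ?_⟩
  obtain ⟨q, rfl⟩ := mk_surj y
  rw [SeparationQuotient.dist_mk] at hy
  rw [fT_mk, fT_mk, SeparationQuotient.dist_mk]
  have := dist_FP hT q p
  linarith

lemma fT_iterate (hT : ∀ x y, dist (T x) (T y) ≤ 2 * dist x y) (n : ℕ) (p : Pt M) :
    (fT T hT)^[n] (mk p) = mk ((FP T)^[n] p) := by
  induction n with
  | zero => rfl
  | succ n ih => rw [Function.iterate_succ_apply', Function.iterate_succ_apply', ih, fT_mk]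

lemma FP_m (n : ℕ) (p : Pt M) : ((FP T)^[n] p).m = T^[n] p.m := by
  induction n with
  | zero => rfl
  | succ n ih => rw [Function.iterate_succ_apply', Function.iterate_succ_apply', ← ih]; rfl

lemma FP_t_one {p : Pt M} (hp : p.t = 1) (n : ℕ) : ((FP T)^[n] p).t = 1 := by
  induction n with
  | zero => exact hp
  | succ n ih =>
    rw [Function.iterate_succ_apply']
    show max 0 (2 * ((FP T)^[n] p).t - 1) = 1
    rw [ih]; norm_num

lemma FP_t_le (p : Pt M) (n : ℕ) : ((FP T)^[n] p).t ≤ max 0 (1 - 2 ^ n * (1 - p.t)) := by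
  induction n with
  | zero => simp
  | succ n ih =>
    rw [Function.iterate_succ_apply']
    show max 0 (2 * ((FP T)^[n] p).t - 1) ≤ _
    have h0 := ((FP T)^[n] p).h0
    refine max_le (le_max_left _ _) ?_
    rw [pow_succ]
    rcases le_max_iff.1 ih with h | h
    · exact le_trans (by linarith) (le_max_left _ _)
    · exact le_trans (by linarith) (le_max_right _ _)

lemma FP_t_zero {p : Pt M} (hp : p.t < 1) : ∀ᶠ n in atTop, ((FP T)^[n] p).t = 0 := by
  have h1 : Tendsto (fun n : ℕ => (2 : ℝ) ^ n) atTop atTop :=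
    tendsto_pow_atTop_atTop_of_one_lt (by norm_num)
  filter_upwards [h1.eventually_ge_atTop (1 / (1 - p.t))] with n hn
  refine le_antisymm ((FP_t_le p n).trans (max_le le_rfl ?_)) ((FP T)^[n] p).h0
  rw [div_le_iff₀ (by linarith)] at hn
  linarith

lemma dist_top {p q : Pt M} (hp : p.t = 1) (hq : q.t = 1) : dist p q = 2 * dist p.m q.m := by
  rw [dist_def]
  have : meet p q = 1 - dist p.m q.m := by
    unfold meet
    rw [hp, hq, min_self]
    exact min_eq_right (by linarith [dist_nonneg (x := p.m) (y := q.m)])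
  rw [this, hp, hq]; ring

lemma dist_zero {p q : Pt M} (hq : q.t = 0) : dist p q = p.t := by
  rw [dist_def]
  have : meet p q = 0 := le_antisymm ((meet_le_right p q).trans hq.le) (meet_nonneg p q)
  rw [this, hq]; ring

/-- no Li-Yorke pairs: the limits of the distances -/
lemma dist_dichotomy (hT : ∀ x y, dist (T x) (T y) ≤ 2 * dist x y)
    (hM : ∀ m m' : M, (∃ δ > 0, ∀ᶠ k in atTop, δ ≤ dist (T^[k] m) (T^[k] m')) ∨
      ∀ᶠ k in atTop, T^[k] m = T^[k] m') (x y : DTree M) :
    (∃ δ > 0, ∀ᶠ k in atTop, δ ≤ dist ((fT T hT)^[k] x) ((fT T hT)^[k] y)) ∨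
      ∀ᶠ k in atTop, dist ((fT T hT)^[k] x) ((fT T hT)^[k] y) = 0 := by
  obtain ⟨p, rfl⟩ := mk_surj x
  obtain ⟨q, rfl⟩ := mk_surj y
  simp only [fT_iterate, SeparationQuotient.dist_mk]
  rcases p.h1.lt_or_eq with hp | hp
  · rcases q.h1.lt_or_eq with hq | hq
    · right
      filter_upwards [FP_t_zero (T := T) hp, FP_t_zero (T := T) hq] with n h1 h2
      rw [dist_zero h2, h1]
    · left
      refine ⟨1, one_pos, ?_⟩
      filter_upwards [FP_t_zero (T := T) hp] with n h1
      rw [dist_comm, dist_zero h1, FP_t_one hq]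
  · rcases q.h1.lt_or_eq with hq | hq
    · left
      refine ⟨1, one_pos, ?_⟩
      filter_upwards [FP_t_zero (T := T) hq] with n h1
      rw [dist_zero h1, FP_t_one hp]
    · have hd : ∀ k, dist ((FP T)^[k] p) ((FP T)^[k] q) = 2 * dist (T^[k] p.m) (T^[k] q.m) := by
        intro k
        rw [dist_top (FP_t_one hp k) (FP_t_one hq k), FP_m, FP_m]
      rcases hM p.m q.m with ⟨δ, hδ, h⟩ | h
      · left
        refine ⟨δ, hδ, h.mono fun k hk => ?_⟩
        rw [hd]; linarith
      · right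
        refine h.mono fun k hk => ?_
        rw [hd, hk, dist_self, mul_zero]

end Pool.Agent.X194.DC
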