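import Pool.Agent.X194.DC.Dyn

set_option linter.unusedSectionVars false

/-! The ultrametric system: a skew product over an odometer with a free choice at zero. -/

namespace Pool.Agent.X194.DC

open Set Topology Filter Finset

/-- the scales -/
def N : ℕ → ℕ
  | 0 => 1
  | j + 1 => N j * 2 ^ (j + 4)

lemma N_pos (j : ℕ) : 0 < N j := by
  induction j with
  | zero => exact one_pos
  | succ j ih => exact Nat.mul_pos ih (by positivity)

instance (j : ℕ) : NeZero (N j) := ⟨(N_pos j).ne'⟩

lemma N_dvd_succ (j : ℕ) : N j ∣ N (j + 1) := Dvd.intro _ rfl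

lemma N_dvd {i j : ℕ} (h : i ≤ j) : N i ∣ N j := by
  induction j, h using Nat.le_induction with
  | base => exact dvd_rfl
  | succ j _ ih => exact ih.trans (N_dvd_succ j)

lemma N_lt_succ (j : ℕ) : N j < N (j + 1) := by
  show N j < N j * 2 ^ (j + 4)
  have h1 := N_pos j
  have h2 : 1 < 2 ^ (j + 4) := Nat.one_lt_two_pow (by omega)
  nlinarith

lemma lt_N (j : ℕ) : j < N j := by
  induction j with
  | zero => exact one_pos
  | succ j ih => have := N_lt_succ j; omega

lemma N_mono {i j : ℕ} (h : i ≤ j) : N i ≤ N j := Nat.le_of_dvd (N_pos j) (N_dvd h)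

/-- coordinates `(u, x, s)` -/
def E (i : ℕ) : Type := ZMod 2 × ZMod (N i) × ZMod 2

instance (i : ℕ) : TopologicalSpace (E i) := ⊥
instance (i : ℕ) : DiscreteTopology (E i) := ⟨rfl⟩
instance (i : ℕ) : Finite (E i) := inferInstanceAs (Finite (ZMod 2 × ZMod (N i) × ZMod 2))

/-- the metric of the first difference -/
noncomputable instance : MetricSpace (∀ i, E i) := PiNat.metricSpace

/-- the condition at time `k` and level `i` -/
def Cond (y : ∀ i, E i) (k i : ℕ) : Prop :=
  (∀ j < i, (y j).2.1 + (k : ZMod (N j)) = 0) → (y i).2.1 + (k : ZMod (N i)) ≠ 0 →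
    (y (k + 1)).2.2 = (y k).2.2 + ∑ j ∈ range i, (y j).1 +
      (if (y i).2.1 + (k : ZMod (N i)) = (N (i - 1) : ZMod (N i)) then (y i).1 else 0)

/-- the space of the system -/
def Mset : Set (∀ i, E i) := {y | ∀ k i, Cond y k i}

lemma isClosed_Mset : IsClosed Mset := by
  rw [← isOpen_compl_iff, isOpen_iff_mem_nhds]
  intro y hy
  obtain ⟨k, hy⟩ := not_forall.1 hy
  obtain ⟨i, hy⟩ := not_forall.1 hy
  refine mem_of_superset ((PiNat.isOpen_cylinder E y (max i k + 2)).mem_nhds
    (PiNat.self_mem_cylinder y _)) ?_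
  intro z hz hcon
  apply hy
  have hz' : ∀ j < max i k + 2, z j = y j := fun j hj => hz j hj
  have h1 := hcon k i
  unfold Cond at h1 ⊢
  rw [hz' i (by omega), hz' (k + 1) (by omega), hz' k (by omega),
    Finset.sum_congr rfl (fun j hj => by rw [hz' j (by rw [Finset.mem_range] at hj; omega)] :
      ∀ j ∈ range i, (z j).1 = (y j).1)] at h1
  intro h2 h3
  exact h1 (fun j hj => by rw [hz' j (by omega)]; exact h2 j hj) h3

/-- the space -/
abbrev MM : Type := Mset

instance : CompactSpace MM := isCompact_iff_compactSpace.1 isClosed_Mset.isCompact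

instance : Ultra MM where
  nonarch x y z := PiNat.dist_triangle_nonarch x.1 y.1 z.1
  le_one x y := PiNat.dist_le_one x.1 y.1

/-- the map on the product -/
def T0 (y : ∀ i, E i) : ∀ i, E i := fun i => ((y i).1, (y i).2.1 + 1, (y (i + 1)).2.2)

lemma T0_mem {y : ∀ i, E i} (hy : y ∈ Mset) : T0 y ∈ Mset := by
  intro k i h1 h2
  have h3 := hy (k + 1) i
  have e : ∀ j, (T0 y j).2.1 + (k : ZMod (N j)) = (y j).2.1 + ((k + 1 : ℕ) : ZMod (N j)) := by
    intro j
    show (y j).2.1 + 1 + (k : ZMod (N j)) = _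
    push_cast; ring
  rw [e] at h2
  have h4 := h3 (fun j hj => by rw [← e]; exact h1 j hj) h2
  show (y (k + 1 + 1)).2.2 = (y (k + 1)).2.2 + ∑ j ∈ range i, (y j).1 +
    (if (T0 y i).2.1 + (k : ZMod (N i)) = (N (i - 1) : ZMod (N i)) then (y i).1 else 0)
  rw [e, h4]

/-- the map of the system -/
def T (y : MM) : MM := ⟨T0 y.1, T0_mem y.2⟩

lemma T_iter (y : MM) (k : ℕ) (i : ℕ) :
    (T^[k] y).1 i = ((y.1 i).1, (y.1 i).2.1 + (k : ZMod (N i)), (y.1 (i + k)).2.2) := by
  induction k generalizing i with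
  | zero => simp
  | succ k ih =>
    rw [Function.iterate_succ_apply']
    show (((T^[k] y).1 i).1, ((T^[k] y).1 i).2.1 + 1, ((T^[k] y).1 (i + 1)).2.2) = _
    rw [ih, ih]
    refine Prod.ext rfl (Prod.ext ?_ ?_)
    · show (y.1 i).2.1 + (k : ZMod (N i)) + 1 = (y.1 i).2.1 + ((k + 1 : ℕ) : ZMod (N i))
      push_cast; ring
    · show (y.1 (i + 1 + k)).2.2 = (y.1 (i + (k + 1))).2.2
      rw [show i + 1 + k = i + (k + 1) by ring]

lemma le_dist_of_ne {x y : MM} {i : ℕ} (h : x.1 i ≠ y.1 i) : (1 / 2 : ℝ) ^ i ≤ dist x y := by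
  have hne : x.1 ≠ y.1 := fun h' => h (by rw [h'])
  show _ ≤ dist x.1 y.1
  have h1 : dist x.1 y.1 = (1 / 2 : ℝ) ^ PiNat.firstDiff x.1 y.1 := PiNat.dist_eq_of_ne hne
  rw [h1]
  refine pow_le_pow_of_le_one (by norm_num) (by norm_num) ?_
  by_contra hcon
  push Not at hcon
  exact h (PiNat.apply_eq_of_lt_firstDiff hcon)

lemma dist_le_of_eq {x y : MM} {n : ℕ} (h : ∀ i < n, x.1 i = y.1 i) :
    dist x y ≤ (1 / 2 : ℝ) ^ n := by
  have : x.1 ∈ PiNat.cylinder y.1 n := fun i hi => h i hi
  exact PiNat.mem_cylinder_iff_dist_le.1 this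

lemma T_lip (x y : MM) : dist (T x) (T y) ≤ 2 * dist x y := by
  by_cases hne : x.1 = y.1
  · have : x = y := Subtype.ext hne
    rw [this, dist_self, dist_self, mul_zero]
  have h1 : dist x y = (1 / 2 : ℝ) ^ PiNat.firstDiff x.1 y.1 := PiNat.dist_eq_of_ne hne
  have h2 : ∀ i < PiNat.firstDiff x.1 y.1, x.1 i = y.1 i := fun i hi =>
    PiNat.apply_eq_of_lt_firstDiff hi
  rw [h1]
  generalize PiNat.firstDiff x.1 y.1 = n at h2
  rcases n with _ | n
  · have := Ultra.le_one (T x) (T y)
    norm_num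
    linarith
  · have h3 : dist (T x) (T y) ≤ (1 / 2 : ℝ) ^ n := by
      refine dist_le_of_eq fun i hi => ?_
      show ((x.1 i).1, (x.1 i).2.1 + 1, (x.1 (i + 1)).2.2) =
        ((y.1 i).1, (y.1 i).2.1 + 1, (y.1 (i + 1)).2.2)
      rw [h2 i (by omega), h2 (i + 1) (by omega)]
    rw [pow_succ]; linarith

/-- there are no Li-Yorke pairs in the system -/
lemma T_dichotomy (m m' : MM) : (∃ δ > 0, ∀ᶠ k in atTop, δ ≤ dist (T^[k] m) (T^[k] m')) ∨
    ∀ᶠ k in atTop, T^[k] m = T^[k] m' := by
  by_cases h : ∀ i, (m.1 i).1 = (m'.1 i).1 ∧ (m.1 i).2.1 = (m'.1 i).2.1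
  · -- the same base point
    have hstep : ∀ k i, (m.1 i).2.1 + (k : ZMod (N i)) ≠ 0 →
        (m.1 (k + 1)).2.2 - (m'.1 (k + 1)).2.2 = (m.1 k).2.2 - (m'.1 k).2.2 := by
      intro k i hi
      classical
      have hex : ∃ i, (m.1 i).2.1 + (k : ZMod (N i)) ≠ 0 := ⟨i, hi⟩
      have hmin : ∀ j < Nat.find hex, (m.1 j).2.1 + (k : ZMod (N j)) = 0 := by
        intro j hj
        have := Nat.find_min hex hj
        rwa [not_not] at this
      have h1 := m.2 k (Nat.find hex) hmin (Nat.find_spec hex)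
      have h2 := m'.2 k (Nat.find hex) (fun j hj => by rw [← (h j).2]; exact hmin j hj)
        (by rw [← (h _).2]; exact Nat.find_spec hex)
      rw [← (h _).2, ← (h _).1,
        ← Finset.sum_congr rfl (fun j _ => (h j).1 : ∀ j ∈ range (Nat.find hex),
          (m.1 j).1 = (m'.1 j).1)] at h2
      rw [h1, h2]; ring
    obtain ⟨K, hK⟩ : ∃ K : ℕ, ∀ k ≥ K, ∃ i, (m.1 i).2.1 + (k : ZMod (N i)) ≠ 0 := by
      by_cases hz : ∃ k₀ : ℕ, ∀ i, (m.1 i).2.1 + (k₀ : ZMod (N i)) = 0
      · obtain ⟨k₀, hk₀⟩ := hz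
        refine ⟨k₀ + 1, fun k hk => ?_⟩
        by_contra hcon
        push Not at hcon
        have h1 : (k : ZMod (N k)) = (k₀ : ZMod (N k)) :=
          add_left_cancel ((hcon k).trans (hk₀ k).symm)
        rw [ZMod.natCast_eq_natCast_iff] at h1
        have h2 := lt_N k
        have := Nat.ModEq.eq_of_lt_of_lt h1 h2 (by omega)
        omega
      · refine ⟨0, fun k _ => ?_⟩
        by_contra hcon
        push Not at hcon
        exact hz ⟨k, hcon⟩
    have hconst : ∀ k ≥ K, (m.1 k).2.2 - (m'.1 k).2.2 = (m.1 K).2.2 - (m'.1 K).2.2 := by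
      intro k hk
      induction k, hk using Nat.le_induction with
      | base => rfl
      | succ k hk ih =>
        obtain ⟨i, hi⟩ := hK k hk
        rw [hstep k i hi, ih]
    by_cases hc : (m.1 K).2.2 - (m'.1 K).2.2 = 0
    · right
      filter_upwards [eventually_ge_atTop K] with k hk
      apply Subtype.ext
      funext i
      rw [T_iter, T_iter]
      refine Prod.ext (h i).1 (Prod.ext ?_ ?_)
      · show (m.1 i).2.1 + (k : ZMod (N i)) = (m'.1 i).2.1 + (k : ZMod (N i))
        rw [(h i).2]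
      · show (m.1 (i + k)).2.2 = (m'.1 (i + k)).2.2
        have := hconst (i + k) (by omega)
        rw [hc] at this
        exact sub_eq_zero.1 this
    · left
      refine ⟨1, one_pos, ?_⟩
      filter_upwards [eventually_ge_atTop K] with k hk
      have hne : (T^[k] m).1 0 ≠ (T^[k] m').1 0 := by
        rw [T_iter, T_iter]
        intro h1
        have h2 : (m.1 (0 + k)).2.2 = (m'.1 (0 + k)).2.2 := congrArg (fun e => e.2.2) h1
        rw [zero_add] at h2
        have h3 := hconst k hk
        rw [h2, sub_self] at h3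
        exact hc h3.symm
      simpa using le_dist_of_ne hne
  · left
    push Not at h
    obtain ⟨i, hi⟩ := h
    refine ⟨(1 / 2 : ℝ) ^ i, by positivity, Eventually.of_forall fun k => le_dist_of_ne ?_⟩
    rw [T_iter, T_iter]
    intro h1
    have h2 : (m.1 i).1 = (m'.1 i).1 := congrArg (fun e => e.1) h1
    have h3 : (m.1 i).2.1 + (k : ZMod (N i)) = (m'.1 i).2.1 + (k : ZMod (N i)) :=
      congrArg (fun e => e.2.1) h1
    exact hi h2 (add_right_cancel h3)

/-! ### the irregular points -/

/-- the indicator of a nonzero digit -/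
def dig (j k : ℕ) : ZMod 2 := if N j ≤ k % N (j + 1) then 1 else 0

/-- the fibre coordinate of the point with parameter `u` at time `k` -/
def S (u : ℕ → ZMod 2) (k : ℕ) : ZMod 2 := ∑ j ∈ range k, u (j + 1) * dig j k

lemma dig_of_lt {j k : ℕ} (h : k < N j) : dig j k = 0 := by
  unfold dig
  rw [if_neg]
  push Not
  exact lt_of_le_of_lt (Nat.mod_le _ _) h

lemma S_eq (u : ℕ → ZMod 2) {k K : ℕ} (h : ∀ j, K ≤ j → k < N j) :
    S u k = ∑ j ∈ range K, u (j + 1) * dig j k := by
  have h1 : ∀ L, k ≤ L → ∑ j ∈ range L, u (j + 1) * dig j k = S u k := by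
    intro L hL
    induction L, hL using Nat.le_induction with
    | base => rfl
    | succ L hL ih =>
      rw [Finset.sum_range_succ, ih, dig_of_lt (lt_of_le_of_lt hL (lt_N L)), mul_zero, add_zero]
  have h2 : ∀ L, K ≤ L → ∑ j ∈ range L, u (j + 1) * dig j k =
      ∑ j ∈ range K, u (j + 1) * dig j k := by
    intro L hL
    induction L, hL using Nat.le_induction with
    | base => rfl
    | succ L hL ih =>
      rw [Finset.sum_range_succ, ih, dig_of_lt (h L hL), mul_zero, add_zero]
  rw [← h1 (max k K) (le_max_left _ _), h2 (max k K) (le_max_right _ _)]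

lemma S_sub (u v : ℕ → ZMod 2) (k : ℕ) : S (fun j => u j - v j) k = S u k - S v k := by
  unfold S
  rw [← Finset.sum_sub_distrib]
  refine Finset.sum_congr rfl fun j _ => ?_
  ring

lemma one_add_cast_eq_zero {i k : ℕ} : (1 : ZMod (N i)) + (k : ZMod (N i)) = 0 ↔ N i ∣ k + 1 := by
  rw [← ZMod.natCast_eq_zero_iff]
  push_cast
  rw [add_comm]

/-- change of the digits -/
lemma dig_succ {i k j : ℕ} (h1 : ∀ l < i, N l ∣ k + 1) (h2 : ¬ N i ∣ k + 1) :
    dig j (k + 1) = dig j k + (if j + 1 < i then 1 else 0) +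
      (if j + 1 = i ∧ (k + 1) % N i = N j then 1 else 0) := by
  have hp := N_pos (j + 1)
  have hlt := N_lt_succ j
  rcases Nat.lt_or_ge (j + 1) i with h | h
  · have hd := h1 (j + 1) h
    rw [if_pos h, if_neg (by omega), add_zero]
    have e1 : (k + 1) % N (j + 1) = 0 := Nat.mod_eq_zero_of_dvd hd
    have e2 : k % N (j + 1) = N (j + 1) - 1 := by
      obtain ⟨c, hc⟩ := hd
      rcases c with _ | c
      · omega
      · have : k = N (j + 1) * c + (N (j + 1) - 1) := by
          rw [mul_add, mul_one] at hc; omega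
        rw [this, Nat.mul_add_mod]
        exact Nat.mod_eq_of_lt (by omega)
    unfold dig
    have hN := N_pos j
    rw [e1, e2, if_neg (by omega), if_pos (by omega)]
    decide
  · have hnd : ¬ N (j + 1) ∣ k + 1 := fun hd => h2 ((N_dvd h).trans hd)
    rw [if_neg (by omega), add_zero]
    have e1 : (k + 1) % N (j + 1) = k % N (j + 1) + 1 := by
      have h3 := Nat.mod_lt k hp
      have h4 : (k + 1) % N (j + 1) = (k % N (j + 1) + 1) % N (j + 1) := by
        rw [Nat.mod_add_mod]
      rcases Nat.lt_or_ge (k % N (j + 1) + 1) (N (j + 1)) with h5 | h5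
      · rw [h4, Nat.mod_eq_of_lt h5]
      · exfalso
        have h6 : k % N (j + 1) + 1 = N (j + 1) := by omega
        rw [h6, Nat.mod_self] at h4
        exact hnd (Nat.dvd_of_mod_eq_zero h4)
    by_cases hc : k % N (j + 1) + 1 = N j
    · -- the digit changes
      have hji : j + 1 = i := by
        by_contra hne
        have hij : i ≤ j := by omega
        have : N j ∣ k + 1 := by
          have h5 : N j ∣ (k + 1) % N (j + 1) := by rw [e1, hc]
          have h6 := Nat.div_add_mod (k + 1) (N (j + 1))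
          rw [← h6]
          exact dvd_add ((N_dvd_succ j).mul_right _) h5
        exact h2 ((N_dvd hij).trans this)
      rw [if_pos ⟨hji, by rw [← hji, e1, hc]⟩]
      unfold dig
      rw [e1, if_pos (by omega), if_neg (by omega), zero_add]
    · rw [if_neg, add_zero]
      · unfold dig
        rw [e1]
        by_cases h7 : N j ≤ k % N (j + 1)
        · rw [if_pos (by omega), if_pos h7]
        · rw [if_neg (by omega), if_neg h7]
      · rintro ⟨rfl, h8⟩
        rw [e1] at h8
        exact hc h8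

/-- the number of times `k < N i` at which `S u k` differs from the partial sum of `u` -/
def bad (u : ℕ → ZMod 2) (i : ℕ) : Finset ℕ :=
  {k ∈ range (N i) | S u k ≠ ∑ j ∈ range i, u (j + 1)}

lemma S_split (u : ℕ → ZMod 2) {i k : ℕ} (hk : k < N (i + 1)) :
    S u k = S u (k % N i) + (if N i ≤ k then u (i + 1) else 0) := by
  have hm := Nat.mod_lt k (N_pos i)
  rw [S_eq u (K := i + 1) (fun j hj => lt_of_lt_of_le hk (N_mono hj)),
    S_eq u (k := k % N i) (K := i) (fun j hj => lt_of_lt_of_le hm (N_mono hj)),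
    Finset.sum_range_succ]
  congr 1
  · refine Finset.sum_congr rfl fun j hj => ?_
    rw [Finset.mem_range] at hj
    unfold dig
    rw [Nat.mod_mod_of_dvd _ (N_dvd hj)]
  · unfold dig
    rw [Nat.mod_eq_of_lt hk]
    split_ifs <;> ring

lemma card_bad (u : ℕ → ZMod 2) (i : ℕ) :
    ((bad u i).card : ℝ) ≤ N i * (1 / 8 - 1 / 2 ^ (i + 3)) := by
  induction i with
  | zero =>
    have : bad u 0 = ∅ := by
      unfold bad
      ext k
      simp only [Finset.mem_filter, Finset.mem_range, Finset.range_zero, Finset.sum_empty,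
        Finset.notMem_empty, iff_false, not_and, not_not]
      intro hk
      have : k = 0 := by
        have : N 0 = 1 := rfl
        omega
      rw [this]; rfl
    rw [this]
    norm_num
  | succ i ih =>
    have hsub : bad u (i + 1) ⊆ range (N i) ∪
        ((range (2 ^ (i + 4))) ×ˢ (bad u i)).image (fun z => z.1 * N i + z.2) := by
      intro k hk
      unfold bad at hk
      rw [Finset.mem_filter, Finset.mem_range] at hk
      obtain ⟨hk1, hk2⟩ := hk
      rw [Finset.mem_union, Finset.mem_range]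
      rcases Nat.lt_or_ge k (N i) with h | h
      · exact Or.inl h
      · right
        rw [Finset.mem_image]
        refine ⟨(k / N i, k % N i), ?_, ?_⟩
        · rw [Finset.mem_product, Finset.mem_range]
          refine ⟨?_, ?_⟩
          · show k / N i < _
            rw [Nat.div_lt_iff_lt_mul (N_pos i), mul_comm]
            exact hk1
          · unfold bad
            rw [Finset.mem_filter, Finset.mem_range]
            refine ⟨Nat.mod_lt _ (N_pos i), ?_⟩
            intro h'
            apply hk2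
            rw [S_split u hk1, if_pos h, Finset.sum_range_succ]
            rw [show S u (k % N i) = ∑ j ∈ range i, u (j + 1) from h']
        · show k / N i * N i + k % N i = k
          rw [mul_comm]; exact Nat.div_add_mod _ _
    have hcard : (bad u (i + 1)).card ≤ N i + 2 ^ (i + 4) * (bad u i).card := by
      refine (Finset.card_le_card hsub).trans ((Finset.card_union_le _ _).trans ?_)
      rw [Finset.card_range]
      refine Nat.add_le_add_left (Finset.card_image_le.trans ?_) _
      rw [Finset.card_product, Finset.card_range]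
    have hcard' : ((bad u (i + 1)).card : ℝ) ≤ N i + 2 ^ (i + 4) * (bad u i).card := by
      exact_mod_cast hcard
    have hN : (N (i + 1) : ℝ) = N i * 2 ^ (i + 4) := by
      show ((N i * 2 ^ (i + 4) : ℕ) : ℝ) = _
      push_cast; ring
    rw [hN]
    have h2 : (2 : ℝ) ^ (i + 4) * (bad u i).card ≤
        2 ^ (i + 4) * (N i * (1 / 8 - 1 / 2 ^ (i + 3))) :=
      mul_le_mul_of_nonneg_left ih (by positivity)
    have h3 : (N i : ℝ) * 2 ^ (i + 4) * (1 / 8 - 1 / 2 ^ (i + 1 + 3)) =
        N i + 2 ^ (i + 4) * (N i * (1 / 8 - 1 / 2 ^ (i + 3))) := by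
      rw [show i + 1 + 3 = i + 4 by ring, show (2 : ℝ) ^ (i + 4) = 2 ^ (i + 3) * 2 by
        rw [pow_succ]]
      field_simp
      ring
    rw [h3]
    linarith

/-- the irregular point with parameter `u` -/
def pt (u : ℕ → ZMod 2) : ∀ i, E i := fun i => (u i, 1, S u i)

lemma pt_mem {u : ℕ → ZMod 2} (hu : u 0 = 0) : pt u ∈ Mset := by
  intro k i h1 h2
  have h1' : ∀ l < i, N l ∣ k + 1 := fun l hl => one_add_cast_eq_zero.1 (h1 l hl)
  have h2' : ¬ N i ∣ k + 1 := fun h => h2 (one_add_cast_eq_zero.2 h)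
  obtain ⟨i, rfl⟩ : ∃ i', i = i' + 1 := by
    rcases i with _ | i
    · exact absurd (one_dvd _) h2'
    · exact ⟨i, rfl⟩
  show S u (k + 1) = S u k + ∑ j ∈ range (i + 1), u j +
    (if (1 : ZMod (N (i + 1))) + (k : ZMod (N (i + 1))) = (N (i + 1 - 1) : ZMod (N (i + 1)))
      then u (i + 1) else 0)
  set K := k + i + 2 with hK
  have hK1 : ∀ j, K ≤ j → k + 1 < N j := fun j hj => by have := lt_N j; omega
  have hK2 : ∀ j, K ≤ j → k < N j := fun j hj => by have := lt_N j; omega
  rw [S_eq u hK1, S_eq u hK2]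
  simp only [dig_succ h1' h2', mul_add, Finset.sum_add_distrib]
  rw [add_assoc, add_assoc]
  congr 1
  congr 1
  · rw [Finset.sum_range_succ' (fun j => u j) i, hu, add_zero]
    simp only [mul_ite, mul_one, mul_zero, Nat.add_lt_add_iff_right]
    rw [← Finset.sum_filter]
    refine Finset.sum_congr ?_ fun _ _ => rfl
    ext j
    simp only [Finset.mem_filter, Finset.mem_range]
    omega
  · have hcast : ((1 : ZMod (N (i + 1))) + (k : ZMod (N (i + 1))) =
        (N (i + 1 - 1) : ZMod (N (i + 1)))) ↔ (k + 1) % N (i + 1) = N i := by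
      rw [show (1 : ZMod (N (i + 1))) + (k : ZMod (N (i + 1))) =
        ((k + 1 : ℕ) : ZMod (N (i + 1))) by push_cast; ring, ZMod.natCast_eq_natCast_iff,
        Nat.add_sub_cancel]
      unfold Nat.ModEq
      rw [Nat.mod_eq_of_lt (N_lt_succ i)]
    simp only [hcast]
    rw [Finset.sum_eq_single_of_mem i (by rw [Finset.mem_range]; omega)]
    · simp
    · intro j _ hj
      rw [if_neg (by omega), mul_zero]

end Pool.Agent.X194.DC
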