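import Mathlib

set_option linter.unusedSectionVars false
set_option linter.style.haveILetI false

/-! The tree over a compact ultrametric space of diameter at most one. -/

namespace Pool.Agent.X194.DC

open Set Topology Filter

/-- ultrametric spaces of diameter at most one -/
class Ultra (M : Type) [MetricSpace M] : Prop where
  nonarch : ∀ x y z : M, dist x z ≤ max (dist x y) (dist y z)
  le_one : ∀ x y : M, dist x y ≤ 1

/-- points of the tree: the point at height `t` on the branch `m` -/
@[ext] structure Pt (M : Type) where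
  m : M
  t : ℝ
  h0 : 0 ≤ t
  h1 : t ≤ 1

variable {M : Type} [MetricSpace M] [Ultra M]

/-- the height of the branching point of two points -/
noncomputable def meet (p q : Pt M) : ℝ := min (min p.t q.t) (1 - dist p.m q.m)

lemma meet_le_left (p q : Pt M) : meet p q ≤ p.t := (min_le_left _ _).trans (min_le_left _ _)

lemma meet_le_right (p q : Pt M) : meet p q ≤ q.t := (min_le_left _ _).trans (min_le_right _ _)

lemma meet_le_dist (p q : Pt M) : meet p q ≤ 1 - dist p.m q.m := min_le_right _ _

lemma meet_comm (p q : Pt M) : meet p q = meet q p := by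
  unfold meet; rw [min_comm p.t, dist_comm]

lemma meet_self (p : Pt M) : meet p p = p.t := by
  unfold meet; rw [min_self, dist_self, sub_zero, min_eq_left p.h1]

lemma meet_nonneg (p q : Pt M) : 0 ≤ meet p q := by
  have := Ultra.le_one p.m q.m
  exact le_min (le_min p.h0 q.h0) (by linarith)

lemma le_meet_iff {p q : Pt M} {r : ℝ} :
    r ≤ meet p q ↔ (r ≤ p.t ∧ r ≤ q.t) ∧ dist p.m q.m ≤ 1 - r := by
  unfold meet
  rw [le_min_iff, le_min_iff]
  constructor
  · rintro ⟨h1, h2⟩; exact ⟨h1, by linarith⟩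
  · rintro ⟨h1, h2⟩; exact ⟨h1, by linarith⟩

lemma min_meet_le (p q s : Pt M) : min (meet p q) (meet q s) ≤ meet p s := by
  rw [le_meet_iff]
  have h1 := min_le_left (meet p q) (meet q s)
  have h2 := min_le_right (meet p q) (meet q s)
  refine ⟨⟨h1.trans (meet_le_left p q), h2.trans (meet_le_right q s)⟩, ?_⟩
  refine (Ultra.nonarch p.m q.m s.m).trans (max_le ?_ ?_)
  · have := meet_le_dist p q; linarith
  · have := meet_le_dist q s; linarith

noncomputable instance : PseudoMetricSpace (Pt M) where
  dist p q := (p.t - meet p q) + (q.t - meet p q)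
  dist_self p := by rw [meet_self]; ring
  dist_comm p q := by rw [meet_comm]; ring
  dist_triangle p q s := by
    have h1 := min_meet_le p q s
    have h2 : max (meet p q) (meet q s) ≤ q.t := max_le (meet_le_right p q) (meet_le_left q s)
    have h3 := min_add_max (meet p q) (meet q s)
    show p.t - meet p s + (s.t - meet p s) ≤
      (p.t - meet p q + (q.t - meet p q)) + (q.t - meet q s + (s.t - meet q s))
    linarith

lemma dist_def (p q : Pt M) : dist p q = (p.t - meet p q) + (q.t - meet p q) := rfl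

lemma dist_eq_zero_iff {p q : Pt M} :
    dist p q = 0 ↔ p.t = q.t ∧ dist p.m q.m ≤ 1 - p.t := by
  rw [dist_def]
  have h1 := meet_le_left p q
  have h2 := meet_le_right p q
  constructor
  · intro h
    have h3 : meet p q = p.t := by linarith
    have h4 : meet p q = q.t := by linarith
    refine ⟨by linarith, ?_⟩
    have := meet_le_dist p q
    linarith
  · rintro ⟨h3, h4⟩
    have : p.t ≤ meet p q := by
      rw [le_meet_iff]
      exact ⟨⟨le_rfl, h3.le⟩, h4⟩
    linarith

/-- moving along one branch -/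
lemma dist_same (m : M) {t t' : ℝ} (h0 : 0 ≤ t) (h1 : t ≤ 1) (h0' : 0 ≤ t') (h1' : t' ≤ 1) :
    dist (⟨m, t, h0, h1⟩ : Pt M) ⟨m, t', h0', h1'⟩ = |t - t'| := by
  rw [dist_def]
  have : meet (⟨m, t, h0, h1⟩ : Pt M) ⟨m, t', h0', h1'⟩ = min t t' := by
    unfold meet
    show min (min t t') (1 - dist m m) = _
    rw [dist_self, sub_zero]
    exact min_eq_left ((min_le_left _ _).trans h1)
  rw [this]
  show t - min t t' + (t' - min t t') = _
  rcases le_total t t' with h | h
  · rw [min_eq_left h, abs_of_nonpos (by linarith)]; ring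
  · rw [min_eq_right h, abs_of_nonneg (by linarith)]; ring

lemma dist_le_add (p q : Pt M) : dist p q ≤ |p.t - q.t| + 2 * dist p.m q.m := by
  rw [dist_def]
  have h0 : 0 ≤ dist p.m q.m := dist_nonneg
  have h1 : min p.t q.t - dist p.m q.m ≤ meet p q := by
    rw [le_meet_iff]
    refine ⟨⟨?_, ?_⟩, ?_⟩
    · linarith [min_le_left p.t q.t]
    · linarith [min_le_right p.t q.t]
    · linarith [min_le_left p.t q.t, p.h1]
  rcases le_total p.t q.t with h | h
  · rw [min_eq_left h] at h1
    rw [abs_of_nonpos (by linarith)]; linarith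
  · rw [min_eq_right h] at h1
    rw [abs_of_nonneg (by linarith)]; linarith

/-- the tree -/
abbrev DTree (M : Type) [MetricSpace M] [Ultra M] : Type := SeparationQuotient (Pt M)

/-- class of a point -/
noncomputable abbrev mk (p : Pt M) : DTree M := SeparationQuotient.mk p

lemma mk_eq_mk {p q : Pt M} : mk p = mk q ↔ dist p q = 0 := by
  rw [← SeparationQuotient.dist_mk, dist_eq_zero]

lemma mk_surj (x : DTree M) : ∃ p, mk p = x := SeparationQuotient.surjective_mk x

instance [CompactSpace M] : CompactSpace (Pt M) := by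
  let F : M × unitInterval → Pt M := fun z => ⟨z.1, z.2, z.2.2.1, z.2.2.2⟩
  have hF : Continuous F := by
    rw [Metric.continuous_iff]
    intro z ε hε
    refine ⟨ε / 3, by linarith, fun w hw => ?_⟩
    rw [Prod.dist_eq, max_lt_iff, Subtype.dist_eq, Real.dist_eq] at hw
    refine lt_of_le_of_lt (dist_le_add _ _) ?_
    show |(w.2 : ℝ) - z.2| + 2 * dist w.1 z.1 < ε
    linarith
  have hsurj : Function.Surjective F := fun p => ⟨⟨p.m, p.t, p.h0, p.h1⟩, rfl⟩
  exact hsurj.compactSpace hF

instance [CompactSpace M] : CompactSpace (DTree M) :=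
  SeparationQuotient.surjective_mk.compactSpace SeparationQuotient.continuous_mk

/-- the point of the branch of `p` at height `r` -/
def at' (p : Pt M) (r : ℝ) (h0 : 0 ≤ r) (h1 : r ≤ 1) : Pt M := ⟨p.m, r, h0, h1⟩

/-- a segment of a branch -/
noncomputable def seg (p : Pt M) (a b : ℝ) (ha : 0 ≤ a) (hb : b ≤ 1) : Set (DTree M) :=
  range fun r : Icc a b => mk (at' p r (ha.trans r.2.1) (r.2.2.trans hb))

lemma isPreconnected_seg (p : Pt M) (a b : ℝ) (ha : 0 ≤ a) (hb : b ≤ 1) :
    IsPreconnected (seg p a b ha hb) := by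
  haveI : PreconnectedSpace (Icc a b) := Subtype.preconnectedSpace isPreconnected_Icc
  refine isPreconnected_range ?_
  rw [Metric.continuous_iff]
  intro z ε hε
  refine ⟨ε, hε, fun w hw => ?_⟩
  rw [SeparationQuotient.dist_mk]
  unfold at'
  rw [dist_same]
  exact hw

lemma mk_at_self (p : Pt M) : mk (at' p p.t p.h0 p.h1) = mk p := rfl

lemma mk_at_meet (p q : Pt M) :
    mk (at' p (meet p q) (meet_nonneg p q) ((meet_le_left p q).trans p.h1)) =
      mk (at' q (meet p q) (meet_nonneg p q) ((meet_le_left p q).trans p.h1)) := by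
  rw [mk_eq_mk, dist_eq_zero_iff]
  refine ⟨rfl, ?_⟩
  have := meet_le_dist p q
  show dist p.m q.m ≤ 1 - meet p q
  linarith

/-- the geodesic between two points -/
noncomputable def geo (p q : Pt M) : Set (DTree M) :=
  seg p (meet p q) p.t (meet_nonneg p q) p.h1 ∪ seg q (meet p q) q.t (meet_nonneg p q) q.h1

lemma isPreconnected_geo (p q : Pt M) : IsPreconnected (geo p q) := by
  refine IsPreconnected.union (mk (at' p (meet p q) (meet_nonneg p q)
    ((meet_le_left p q).trans p.h1))) ?_ ?_ (isPreconnected_seg _ _ _ _ _)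
    (isPreconnected_seg _ _ _ _ _)
  · exact ⟨⟨meet p q, le_rfl, meet_le_left p q⟩, rfl⟩
  · rw [mk_at_meet]
    exact ⟨⟨meet p q, le_rfl, meet_le_right p q⟩, rfl⟩

lemma left_mem_geo (p q : Pt M) : mk p ∈ geo p q :=
  Or.inl ⟨⟨p.t, meet_le_left p q, le_rfl⟩, rfl⟩

lemma right_mem_geo (p q : Pt M) : mk q ∈ geo p q :=
  Or.inr ⟨⟨q.t, meet_le_right p q, le_rfl⟩, rfl⟩

lemma geo_dist {p q : Pt M} {x : DTree M} (hx : x ∈ geo p q) : dist (mk p) x ≤ dist (mk p) (mk q) := by
  rw [SeparationQuotient.dist_mk, dist_def]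
  have h1 := meet_le_left p q
  have h2 := meet_le_right p q
  rcases hx with ⟨r, rfl⟩ | ⟨r, rfl⟩
  · rw [SeparationQuotient.dist_mk]
    have := dist_same p.m p.h0 p.h1 ((meet_nonneg p q).trans r.2.1) (r.2.2.trans p.h1)
    have h3 : dist p (at' p r ((meet_nonneg p q).trans r.2.1) (r.2.2.trans p.h1)) = |p.t - r| := this
    rw [h3, abs_of_nonneg (by linarith [r.2.2])]
    linarith [r.2.1]
  · rw [SeparationQuotient.dist_mk, dist_def]
    have h3 : meet p q ≤ meet p (at' q r ((meet_nonneg p q).trans r.2.1) (r.2.2.trans q.h1)) := by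
      rw [le_meet_iff]
      refine ⟨⟨h1, r.2.1⟩, ?_⟩
      have := meet_le_dist p q
      show dist p.m q.m ≤ _
      linarith
    have h4 : (at' q r ((meet_nonneg p q).trans r.2.1) (r.2.2.trans q.h1)).t ≤ q.t := r.2.2
    linarith

instance [Nonempty M] : ConnectedSpace (DTree M) := by
  obtain ⟨m⟩ := (inferInstance : Nonempty M)
  let o : Pt M := ⟨m, 0, le_rfl, zero_le_one⟩
  have h1 : PreconnectedSpace (DTree M) := by
    refine ⟨isPreconnected_of_forall (mk o) fun y _ => ?_⟩
    obtain ⟨q, rfl⟩ := mk_surj y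
    exact ⟨geo o q, subset_univ _, left_mem_geo o q, right_mem_geo o q, isPreconnected_geo o q⟩
  exact { toPreconnectedSpace := h1, toNonempty := ⟨mk o⟩ }

instance : LocallyConnectedSpace (DTree M) := by
  refine locallyConnectedSpace_of_connected_bases (fun x ε => Metric.ball x ε)
    (fun _ ε => 0 < ε) (fun x => Metric.nhds_basis_ball) ?_
  intro x ε hε
  obtain ⟨p, rfl⟩ := mk_surj x
  refine isPreconnected_of_forall (mk p) fun y hy => ?_
  obtain ⟨q, rfl⟩ := mk_surj y
  refine ⟨geo p q, fun z hz => ?_, left_mem_geo p q, right_mem_geo p q, isPreconnected_geo p q⟩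
  rw [Metric.mem_ball, dist_comm] at hy ⊢
  exact lt_of_le_of_lt (geo_dist hz) hy

/-- any two points are separated by a third one -/
lemma exists_sep {a b : DTree M} (hab : a ≠ b) : ∃ c : DTree M, ∃ U V : Set (DTree M), IsOpen U ∧
    IsOpen V ∧ Disjoint U V ∧ U ∪ V = {c}ᶜ ∧ a ∈ U ∧ b ∈ V := by
  -- it suffices to treat the case where `a` is above the branching point
  have key : ∀ p q : Pt M, meet p q < p.t → ∃ c : DTree M, ∃ U V : Set (DTree M), IsOpen U ∧
      IsOpen V ∧ Disjoint U V ∧ U ∪ V = {c}ᶜ ∧ mk p ∈ U ∧ mk q ∈ V := by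
    intro p q hpq
    obtain ⟨ρ, hρ1, hρ2⟩ := exists_between hpq
    have hρ0 : 0 ≤ ρ := (meet_nonneg p q).trans hρ1.le
    have hρ3 : ρ ≤ 1 := hρ2.le.trans p.h1
    let o : Pt M := ⟨p.m, 0, le_rfl, zero_le_one⟩
    -- the height and the meeting height with `p`
    let R : DTree M → ℝ := fun x => (dist x (mk o) + p.t - dist x (mk p)) / 2
    have hRc : Continuous R := by fun_prop
    have hR : ∀ s : Pt M, R (mk s) = meet s p := by
      intro s
      show (dist (mk s) (mk o) + p.t - dist (mk s) (mk p)) / 2 = _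
      rw [SeparationQuotient.dist_mk, SeparationQuotient.dist_mk, dist_def, dist_def]
      have : meet s o = 0 := le_antisymm (meet_le_right s o) (meet_nonneg s o)
      rw [this]
      have : o.t = 0 := rfl
      rw [this]
      ring
    refine ⟨mk (at' p ρ hρ0 hρ3), {x | ρ ≤ R x ∧ x ≠ mk (at' p ρ hρ0 hρ3)}, {x | R x < ρ}, ?_,
      isOpen_lt hRc continuous_const, ?_, ?_, ?_, ?_⟩
    · rw [Metric.isOpen_iff]
      rintro x ⟨hx1, hx2⟩
      obtain ⟨s, rfl⟩ := mk_surj x
      rw [hR] at hx1
      have hs1 := (le_meet_iff.1 hx1)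
      have hst : ρ < s.t := by
        refine lt_of_le_of_ne hs1.1.1 fun h => hx2 ?_
        rw [mk_eq_mk, dist_eq_zero_iff]
        refine ⟨h.symm, ?_⟩
        show dist s.m p.m ≤ 1 - s.t
        rw [← h]; exact hs1.2
      refine ⟨s.t - ρ, by linarith, fun y hy => ?_⟩
      obtain ⟨w, rfl⟩ := mk_surj y
      rw [Metric.mem_ball, SeparationQuotient.dist_mk, dist_def] at hy
      have h1 := meet_le_left w s
      have h2 : ρ < meet w s := by linarith
      refine ⟨?_, ?_⟩
      · rw [hR]
        exact (le_min h2.le hx1).trans (min_meet_le w s p)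
      · intro h
        rw [mk_eq_mk, dist_eq_zero_iff] at h
        have h3 : w.t = ρ := h.1
        linarith
    · rw [Set.disjoint_left]
      rintro x ⟨hx1, -⟩ hx2
      exact absurd hx2 (not_lt.2 hx1)
    · ext x
      constructor
      · rintro (⟨-, h⟩ | h)
        · exact h
        · intro hx
          rw [mem_singleton_iff] at hx
          have h' : R x < ρ := h
          rw [hx, hR] at h'
          refine absurd h' (not_lt.2 ?_)
          rw [le_meet_iff]
          refine ⟨⟨le_rfl, hρ2.le⟩, ?_⟩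
          show dist p.m p.m ≤ _
          rw [dist_self]; linarith
      · intro hx
        rcases le_or_gt ρ (R x) with h | h
        · exact Or.inl ⟨h, hx⟩
        · exact Or.inr h
    · refine ⟨?_, ?_⟩
      · rw [hR, meet_self]; exact hρ2.le
      · intro h
        rw [mk_eq_mk, dist_eq_zero_iff] at h
        have : p.t = ρ := h.1
        linarith
    · show R (mk q) < ρ
      rw [hR, meet_comm]; exact hρ1
  obtain ⟨p, rfl⟩ := mk_surj a
  obtain ⟨q, rfl⟩ := mk_surj b
  by_cases h1 : meet p q < p.t
  · exact key p q h1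
  by_cases h2 : meet q p < q.t
  · obtain ⟨c, U, V, hU, hV, hd, hUV, ha, hb⟩ := key q p h2
    exact ⟨c, V, U, hV, hU, hd.symm, by rw [union_comm]; exact hUV, hb, ha⟩
  · exfalso
    refine hab ?_
    rw [mk_eq_mk, dist_def]
    have h3 := meet_le_left p q
    have h4 := meet_le_right p q
    rw [meet_comm q p] at h2
    linarith

/-- the tree contains no circle -/
theorem no_circle (g : Circle → DTree M) (hg : Continuous g) : ¬ Function.Injective g := by
  intro hinj
  have hne : g 1 ≠ g (-1) := by
    intro h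
    have := hinj h
    have h2 : ((1 : Circle) : ℂ) = ((-1 : Circle) : ℂ) := congrArg _ this
    rw [Circle.coe_one, Circle.coe_neg, Circle.coe_one] at h2
    norm_num at h2
  obtain ⟨c, U, V, hU, hV, hd, hUV, ha, hb⟩ := exists_sep hne
  -- a preconnected subset of the image missing `c` and containing both points
  obtain ⟨S, hS, hSc, hS1, hS2⟩ : ∃ S : Set (DTree M), IsPreconnected S ∧ c ∉ S ∧ g 1 ∈ S ∧
      g (-1) ∈ S := by
    by_cases hc : c ∈ range g
    · obtain ⟨z, hz⟩ := hc
      obtain ⟨θ, hθ⟩ : ∃ θ : ℝ, Circle.exp θ = z := ⟨Complex.arg z, Circle.exp_arg z⟩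
      have hper : Function.Periodic Circle.exp (2 * Real.pi) := Circle.periodic_exp
      have hmem : ∀ w : Circle, w ≠ z → g w ∈ (fun t : ℝ => g (Circle.exp t)) ''
          Ioo θ (θ + 2 * Real.pi) := by
        intro w hw
        obtain ⟨φ, hφ⟩ : ∃ φ : ℝ, Circle.exp φ = w := ⟨Complex.arg w, Circle.exp_arg w⟩
        obtain ⟨y, hy, hy'⟩ := hper.exists_mem_Ico (by positivity) φ θ
        rw [hφ] at hy'
        refine ⟨y, ⟨lt_of_le_of_ne hy.1 ?_, hy.2⟩, by show g (Circle.exp y) = g w; rw [← hy']⟩
        intro h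
        apply hw
        rw [hy', ← h, hθ]
      refine ⟨(fun t : ℝ => g (Circle.exp t)) '' Ioo θ (θ + 2 * Real.pi), ?_, ?_, ?_, ?_⟩
      · exact isPreconnected_Ioo.image _ (hg.comp Circle.exp.continuous).continuousOn
      · rintro ⟨t, ht, htc⟩
        have h1 : Circle.exp t = Circle.exp θ := by
          rw [hθ]
          exact hinj (htc.trans hz.symm)
        rw [Circle.exp_eq_exp] at h1
        obtain ⟨n, hn⟩ := h1
        have hpi := Real.pi_pos
        have h2 : 0 < (n : ℝ) * (2 * Real.pi) := by linarith [ht.1]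
        have h3 : (n : ℝ) * (2 * Real.pi) < 1 * (2 * Real.pi) := by linarith [ht.2]
        have h4 : (0 : ℝ) < n := by
          by_contra hcon
          push Not at hcon
          nlinarith
        have h5 : (n : ℝ) < 1 := lt_of_mul_lt_mul_right h3 (by positivity)
        have h6 : 0 < n := by exact_mod_cast h4
        have h7 : n < 1 := by exact_mod_cast h5
        omega
      · refine hmem 1 ?_
        intro h
        rw [← hz, ← h] at hUV
        have : g 1 ∈ ({g 1} : Set (DTree M))ᶜ := hUV ▸ Or.inl ha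
        exact this rfl
      · refine hmem (-1) ?_
        intro h
        rw [← hz, ← h] at hUV
        have : g (-1) ∈ ({g (-1)} : Set (DTree M))ᶜ := hUV ▸ Or.inr hb
        exact this rfl
    · have hrg : IsPreconnected (range fun t : ℝ => g (Circle.exp t)) :=
        isPreconnected_range (hg.comp Circle.exp.continuous)
      refine ⟨range fun t : ℝ => g (Circle.exp t), hrg, ?_, ?_, ?_⟩
      · rintro ⟨t, ht⟩; exact hc ⟨_, ht⟩
      · exact ⟨Complex.arg (1 : Circle), by show g (Circle.exp _) = _; rw [Circle.exp_arg]⟩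
      · exact ⟨Complex.arg (-1 : Circle), by show g (Circle.exp _) = _; rw [Circle.exp_arg]⟩
  have hsub : S ⊆ U ∪ V := by
    rw [hUV]
    intro x hx h
    rw [mem_singleton_iff] at h
    exact hSc (h ▸ hx)
  have := hS U V hU hV hsub ⟨_, hS1, ha⟩ ⟨_, hS2, hb⟩
  obtain ⟨x, -, hx1, hx2⟩ := this
  exact Set.disjoint_left.1 hd hx1 hx2

end Pool.Agent.X194.DC
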